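import Mathlib
import Pool.Agent.Helper71.SECore

/-!
The shuffle-exchange conjecture `(σ 𝔊)^(2n-1) = 𝔖` fails for `k = n = 3`.
-/

namespace Pool.Agent.Results.MP_c2a5b1_lc.ShuffleFalse

open Pool.Agent.Helper71.SECore

/-- The words `x_1 x_2 ... x_n` of length `n` over a `k`-letter alphabet
(the letter `x_(i+1)` is `x i`). -/
abbrev Word (k n : ℕ) : Type := Fin n → Fin k

/-- The shuffle `σ(x_1 x_2 ... x_n) = x_2 ... x_n x_1`. -/
def shuffle (k n : ℕ) : Equiv.Perm (Word k n) where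
  toFun x := fun i => x (finRotate n i)
  invFun x := fun i => x ((finRotate n).symm i)
  left_inv x := by
    funext i
    exact congrArg x (Equiv.apply_symm_apply _ i)
  right_inv x := by
    funext i
    exact congrArg x (Equiv.symm_apply_apply _ i)

/-- The exchange group: the permutations `π` of the words such that `π w` has the same first
`n - 1` letters as `w`, for every word `w`. -/
def exchange (k n : ℕ) : Set (Equiv.Perm (Word k n)) :=
  {π | ∀ w : Word k n, ∀ i : Fin n, (i : ℕ) + 1 < n → π w i = w i}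

/-- The set `(σ 𝔊)^m` of all products `σ g_1 σ g_2 ... σ g_m` with `g_i` in the exchange
group. -/
def shufflePow (k n m : ℕ) : Set (Equiv.Perm (Word k n)) :=
  {π | ∃ g : Fin m → Equiv.Perm (Word k n), (∀ i, g i ∈ exchange k n) ∧
    π = (List.ofFn (fun i => shuffle k n * g i)).prod}

/-- The word with letters `s / 3`, `s % 3`, `i`. -/
def wd (s i : ℕ) : Word 3 3 :=
  ![⟨s / 3 % 3, Nat.mod_lt _ (by norm_num)⟩, ⟨s % 3, Nat.mod_lt _ (by norm_num)⟩,
    ⟨i % 3, Nat.mod_lt _ (by norm_num)⟩]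

/-- The permutation which is not in `(σ 𝔊)^5`: exchange the words `000`, `110` and the words
`020`, `200`, then shuffle. -/
def pi0 : Equiv.Perm (Word 3 3) :=
  shuffle 3 3 * (Equiv.swap ![0, 0, 0] ![1, 1, 0] * Equiv.swap ![0, 2, 0] ![2, 0, 0])

lemma pi0_spec : ∀ s < 9, ∀ i < 3, ((pi0 (wd s i)) 2).val = tgt s i / 3 ∧
    ((pi0 (wd s i)) 0).val = tgt s i % 3 := by
  decide

lemma shuffle_apply (x : Word 3 3) : shuffle 3 3 x = ![x 1, x 2, x 0] := by
  funext i
  fin_cases i <;> rfl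

lemma shuffle_zero (x : Word 3 3) : shuffle 3 3 x 0 = x 1 := by rw [shuffle_apply]; rfl
lemma shuffle_one (x : Word 3 3) : shuffle 3 3 x 1 = x 2 := by rw [shuffle_apply]; rfl

lemma wd_zero (s i : ℕ) : ((wd s i) 0).val = s / 3 % 3 := rfl
lemma wd_one (s i : ℕ) : ((wd s i) 1).val = s % 3 := rfl
lemma wd_two (s i : ℕ) : ((wd s i) 2).val = i % 3 := rfl

lemma wd_inj {s i s' i' : ℕ} (hs : s < 9) (hi : i < 3) (hs' : s' < 9) (hi' : i' < 3)
    (h : wd s i = wd s' i') : s = s' ∧ i = i' := by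
  have h0 := congrArg (fun w => (w 0).val) h
  have h1 := congrArg (fun w => (w 1).val) h
  have h2 := congrArg (fun w => (w 2).val) h
  simp only [wd_zero, wd_one, wd_two] at h0 h1 h2
  omega

lemma word_ext {x y : Word 3 3} (h0 : x 0 = y 0) (h1 : x 1 = y 1) (h2 : x 2 = y 2) : x = y := by
  funext i
  fin_cases i
  · exact h0
  · exact h1
  · exact h2

lemma ex_apply {g : Equiv.Perm (Word 3 3)} (hg : g ∈ exchange 3 3) (x : Word 3 3) :
    g x 0 = x 0 ∧ g x 1 = x 1 :=
  ⟨hg x 0 (by norm_num), hg x 1 (by norm_num)⟩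

lemma pi0_notMem : pi0 ∉ shufflePow 3 3 5 := by
  rintro ⟨g, hg, hpi⟩
  have hpi' : ∀ x, pi0 x = shuffle 3 3 (g 0 (shuffle 3 3 (g 1 (shuffle 3 3 (g 2
      (shuffle 3 3 (g 3 (shuffle 3 3 (g 4 x))))))))) := by
    intro x
    rw [hpi]
    simp only [List.ofFn_succ, List.ofFn_zero, List.prod_cons, List.prod_nil, mul_one,
      Equiv.Perm.mul_apply]
    rfl
  -- the intermediate words
  let u4 : Word 3 3 → Word 3 3 := fun x => g 4 x
  let u3 : Word 3 3 → Word 3 3 := fun x => g 3 (shuffle 3 3 (u4 x))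
  let u2 : Word 3 3 → Word 3 3 := fun x => g 2 (shuffle 3 3 (u3 x))
  let u1 : Word 3 3 → Word 3 3 := fun x => g 1 (shuffle 3 3 (u2 x))
  let u0 : Word 3 3 → Word 3 3 := fun x => g 0 (shuffle 3 3 (u1 x))
  have i4 : Function.Injective u4 := (g 4).injective
  have i3 : Function.Injective u3 :=
    (g 3).injective.comp ((shuffle 3 3).injective.comp i4)
  have i2 : Function.Injective u2 :=
    (g 2).injective.comp ((shuffle 3 3).injective.comp i3)
  have i1 : Function.Injective u1 :=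
    (g 1).injective.comp ((shuffle 3 3).injective.comp i2)
  have hfin : ∀ x, pi0 x = shuffle 3 3 (u0 x) := hpi'
  -- letters
  have a4 : ∀ x, u4 x 0 = x 0 ∧ u4 x 1 = x 1 := fun x => ex_apply (hg 4) x
  have a3 : ∀ x, u3 x 0 = u4 x 1 ∧ u3 x 1 = u4 x 2 := by
    intro x
    have := ex_apply (hg 3) (shuffle 3 3 (u4 x))
    exact ⟨this.1.trans (shuffle_zero _), this.2.trans (shuffle_one _)⟩
  have a2 : ∀ x, u2 x 0 = u3 x 1 ∧ u2 x 1 = u3 x 2 := by
    intro x
    have := ex_apply (hg 2) (shuffle 3 3 (u3 x))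
    exact ⟨this.1.trans (shuffle_zero _), this.2.trans (shuffle_one _)⟩
  have a1 : ∀ x, u1 x 0 = u2 x 1 ∧ u1 x 1 = u2 x 2 := by
    intro x
    have := ex_apply (hg 1) (shuffle 3 3 (u2 x))
    exact ⟨this.1.trans (shuffle_zero _), this.2.trans (shuffle_one _)⟩
  have a0 : ∀ x, u0 x 0 = u1 x 1 ∧ u0 x 1 = u1 x 2 := by
    intro x
    have := ex_apply (hg 0) (shuffle 3 3 (u1 x))
    exact ⟨this.1.trans (shuffle_zero _), this.2.trans (shuffle_one _)⟩
  -- the last letters: `b1 = (π x) 2 = u2 x 2` and `b2 = (π x) 0 = u1 x 2`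
  have hb1 : ∀ x, pi0 x 2 = u2 x 2 := by
    intro x
    rw [hfin, shuffle_apply]
    change u0 x 0 = u2 x 2
    rw [(a0 x).1, (a1 x).2]
  have hb2 : ∀ x, pi0 x 0 = u1 x 2 := by
    intro x
    rw [hfin, shuffle_apply]
    change u0 x 1 = u1 x 2
    rw [(a0 x).2]
  refine core (fun s i => (u4 (wd s i) 2).val) (fun s i => (u3 (wd s i) 2).val)
    (fun _ _ => Fin.isLt _) (fun _ _ => Fin.isLt _) ?_ ?_ ?_ ?_
  · intro s hs i hi j hj h
    have h4 : u4 (wd s i) = u4 (wd s j) := by
      apply word_ext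
      · rw [(a4 _).1, (a4 _).1]; rfl
      · rw [(a4 _).2, (a4 _).2]; rfl
      · exact Fin.ext h
    exact (wd_inj hs hi hs hj (i4 h4)).2
  · intro s hs i hi s' hs' i' hi' hne h h'
    intro h''
    apply hne
    have h3 : u3 (wd s i) = u3 (wd s' i') := by
      apply word_ext
      · rw [(a3 _).1, (a3 _).1, (a4 _).2, (a4 _).2]
        exact Fin.ext h
      · rw [(a3 _).2, (a3 _).2]
        exact Fin.ext h'
      · exact Fin.ext h''
    have := wd_inj hs hi hs' hi' (i3 h3)
    rw [this.1, this.2]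
  · intro s hs i hi s' hs' i' hi' hne h h'
    intro h''
    apply hne
    have h2 : u2 (wd s i) = u2 (wd s' i') := by
      apply word_ext
      · rw [(a2 _).1, (a2 _).1, (a3 _).2, (a3 _).2]
        exact Fin.ext h'
      · rw [(a2 _).2, (a2 _).2]
        exact Fin.ext h''
      · rw [← hb1, ← hb1]
        apply Fin.ext
        rw [(pi0_spec s hs i hi).1, (pi0_spec s' hs' i' hi').1, h]
    have := wd_inj hs hi hs' hi' (i2 h2)
    rw [this.1, this.2]
  · intro s hs i hi s' hs' i' hi' hne h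
    intro h''
    apply hne
    have h1 : u1 (wd s i) = u1 (wd s' i') := by
      apply word_ext
      · rw [(a1 _).1, (a1 _).1, (a2 _).2, (a2 _).2]
        exact Fin.ext h''
      · rw [(a1 _).2, (a1 _).2, ← hb1, ← hb1]
        apply Fin.ext
        rw [(pi0_spec s hs i hi).1, (pi0_spec s' hs' i' hi').1, h]
      · rw [← hb2, ← hb2]
        apply Fin.ext
        rw [(pi0_spec s hs i hi).2, (pi0_spec s' hs' i' hi').2, h]
    have := wd_inj hs hi hs' hi' (i1 h1)
    rw [this.1, this.2]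

/-- There are `k, n ≥ 2` such that not every permutation of the words is a product
`σ g_1 σ g_2 ... σ g_(2n-1)` with all `g_i` in the exchange group (namely `k = n = 3`). -/
theorem result : ∃ k n : ℕ, 2 ≤ k ∧ 2 ≤ n ∧ shufflePow k n (2 * n - 1) ≠ Set.univ := by
  refine ⟨3, 3, by norm_num, by norm_num, ?_⟩
  intro h
  have h1 : pi0 ∈ shufflePow 3 3 (2 * 3 - 1) := by rw [h]; trivial
  exact pi0_notMem h1

end Pool.Agent.Results.MP_c2a5b1_lc.ShuffleFalse
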